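import Mathlib

set_option autoImplicit false

/-!
# MP_8d002f_nt: products of four terms of an arithmetic progression that are `k`-gonal numbers

For each `k ∈ {7, 14, 37}` the equation `a (a + d) (a + 2 d) (a + 3 d) = P_k(r)` has solutions in
positive integers:

* `18 · 19 · 20 · 21 = P₇(240)`,
* `5 · 15 · 25 · 35 = P₁₄(105)`,
* `69 · 817 · 1565 · 2313 = P₃₇(107985)`.

The progressions of the solutions for `k = 7` and `k = 37` are primitive; for `k = 14` a primitive
one is `129 · 136 · 143 · 150 = P₁₄(7920)`.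
-/

namespace Pool.Agent.Results.MP_8d002f_nt.AllThreeSolvable

/-- The `r`-th `k`-gonal number `r ((k - 2) r - (k - 4)) / 2` (as a rational number, no rounding). -/
def P (k r : ℕ) : ℚ := (1 / 2 : ℚ) * r * (((k : ℚ) - 2) * r - ((k : ℚ) - 4))

/-- For each of `k = 7, 14, 37` there are positive integers `a, d, r` with `gcd(a, d) = 1` and
`a (a + d) (a + 2 d) (a + 3 d) = P_k(r)`. -/
theorem result : ∀ k ∈ ({7, 14, 37} : Finset ℕ), ∃ a d r : ℕ, 1 ≤ a ∧ 1 ≤ d ∧ 1 ≤ r ∧
    Nat.Coprime a d ∧ ((a * (a + d) * (a + 2 * d) * (a + 3 * d) : ℕ) : ℚ) = P k r := by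
  intro k hk
  simp only [Finset.mem_insert, Finset.mem_singleton] at hk
  rcases hk with rfl | rfl | rfl
  · exact ⟨18, 1, 240, by norm_num, by norm_num, by norm_num, by norm_num, by norm_num [P]⟩
  · exact ⟨129, 7, 7920, by norm_num, by norm_num, by norm_num, by norm_num, by norm_num [P]⟩
  · exact ⟨69, 748, 107985, by norm_num, by norm_num, by norm_num, by norm_num, by norm_num [P]⟩

end Pool.Agent.Results.MP_8d002f_nt.AllThreeSolvable
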